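import Pool.Agent.Helper65.TW.Defs

/-!
# TOWERS: the ring of the numbers integral at the bad places, integral matrices
-/

set_option autoImplicit false

namespace Pool.Agent.Helper65.TW

open NumberField Pool.Agent.Helper4.CB Pool.Agent.Helper69.CB
open Pool.Agent.Helper65.CL (Bad)

/-- the numbers which are integral at all bad places -/
def BI (L : Type) [Field L] [NumberField L] (Λ : Finset ℕ) (J : ℕ) : Subring L where
  carrier := {x | ∀ w : Pl L, Bad Λ J w → vl w x ≤ 1}
  mul_mem' := by
    intro a b ha hb w hw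
    have h : vl w (a * b) = vl w a * vl w b := map_mul (w.valuation L) a b
    rw [h]
    exact mul_le_one' (ha w hw) (hb w hw)
  one_mem' := by
    intro w _
    exact (map_one (w.valuation L)).le
  add_mem' := by
    intro a b ha hb w hw
    exact (Valuation.map_add (w.valuation L) a b).trans (max_le (ha w hw) (hb w hw))
  zero_mem' := by
    intro w _
    have h : vl w (0 : L) = 0 := map_zero (w.valuation L)
    rw [h]
    exact zero_le_one
  neg_mem' := by
    intro a ha w hw
    have h : vl w (-a) = vl w a := Valuation.map_neg (w.valuation L) a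
    rw [h]
    exact ha w hw

/-- an integral matrix of determinant one as a unit over `L` -/
noncomputable def slU (L : Type) [Field L] {m : ℕ} (u : Matrix.SpecialLinearGroup (Fin m) ℤ) :
    (Matrix (Fin m) (Fin m) L)ˣ :=
  Matrix.SpecialLinearGroup.toGL (Matrix.SpecialLinearGroup.map (Int.castRingHom L) u)

theorem slU_coe (L : Type) [Field L] {m : ℕ} (u : Matrix.SpecialLinearGroup (Fin m) ℤ) :
    ((slU L u : (Matrix (Fin m) (Fin m) L)ˣ) : Matrix (Fin m) (Fin m) L) =
      (u : Matrix (Fin m) (Fin m) ℤ).map (Int.castRingHom L) := rfl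

theorem slU_inv_coe (L : Type) [Field L] {m : ℕ} (u : Matrix.SpecialLinearGroup (Fin m) ℤ) :
    (((slU L u)⁻¹ : (Matrix (Fin m) (Fin m) L)ˣ) : Matrix (Fin m) (Fin m) L) =
      ((u⁻¹ : Matrix.SpecialLinearGroup (Fin m) ℤ) : Matrix (Fin m) (Fin m) ℤ).map
        (Int.castRingHom L) := by
  have h : (slU L u)⁻¹ = slU L u⁻¹ := by
    unfold slU
    rw [← map_inv, ← map_inv]
  rw [h, slU_coe]

end Pool.Agent.Helper65.TW
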