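import Pool.Agent.Helper65.TW.Defs2
import Pool.Agent.Helper35.BR.End
import Pool.Agent.Helper65.BR.Pts

/-!
# TOWERS: other generators, domination, potential density
-/

set_option autoImplicit false

namespace Pool.Agent.Helper65.TW

open NumberField Pool.Agent.Helper4.CB Pool.Agent.Helper69.CB TensorProduct
open Pool.Agent.Helper65.CL (Bad)
open Pool.Agent.Helper65.BR (bad_mono)
open AlgebraicGeometry CategoryTheory Pool.Agent.Helper15
open Pool.Agent.Helper65.CB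

theorem two_le {Λ : Finset ℕ} (hΛ : ∀ l ∈ Λ, l.Prime) : ∀ l ∈ Λ, 2 ≤ l :=
  fun l hl => (hΛ l hl).two_le

/-- constants are integral at the bad places -/
theorem const_int {K M : Type} [Field K] [Field M] [NumberField M] [Algebra K M] {Λ : Finset ℕ}
    (hΛ : ∀ l ∈ Λ, l.Prime) (c : K) :
    ∃ J0 : ℕ, ∀ J, J0 ≤ J → ∀ p : Pl M, Bad Λ J p → vl p (algebraMap K M c) ≤ 1 := by
  classical
  obtain ⟨J0, hJ0⟩ := Pool.Agent.Helper56.CL.start M (two_le hΛ) {algebraMap K M c} 0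
  refine ⟨J0, fun J hJ p hp => ?_⟩
  by_cases hc : algebraMap K M c = 0
  · rw [hc, map_zero]
    exact zero_le_one
  · exact ((hJ0 J hJ p hp).2 _ (Finset.mem_singleton_self _) hc).le

/-- all elements are integral as soon as the generators are -/
theorem int_of_gen {K M R : Type} [Field K] [Field M] [NumberField M] [Algebra K M] [CommRing R]
    [Algebra K R] {Λ : Finset ℕ} (hΛ : ∀ l ∈ Λ, l.Prime) (G : Finset R)
    (hG : Algebra.adjoin K (G : Set R) = ⊤) (x : R) :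
    ∃ J0 : ℕ, ∀ J, J0 ≤ J → ∀ φ : R →ₐ[K] M, ∀ p : Pl M, Bad Λ J p →
      (∀ g ∈ G, vl p (φ g) ≤ 1) → vl p (φ x) ≤ 1 := by
  have hx : x ∈ Algebra.adjoin K (G : Set R) := by
    rw [hG]
    exact Algebra.mem_top
  induction hx using Algebra.adjoin_induction with
  | mem x hx => exact ⟨0, fun J _ φ p _ h => h x (Finset.mem_coe.1 hx)⟩
  | algebraMap c =>
    obtain ⟨J0, hJ0⟩ := const_int (M := M) hΛ c
    exact ⟨J0, fun J hJ φ p hp _ => by rw [φ.commutes]; exact hJ0 J hJ p hp⟩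
  | add x y _ _ hx hy =>
    obtain ⟨J1, h1⟩ := hx
    obtain ⟨J2, h2⟩ := hy
    refine ⟨max J1 J2, fun J hJ φ p hp h => ?_⟩
    rw [map_add]
    exact (Valuation.map_add _ _ _).trans (max_le (h1 J (le_of_max_le_left hJ) φ p hp h)
      (h2 J (le_of_max_le_right hJ) φ p hp h))
  | mul x y _ _ hx hy =>
    obtain ⟨J1, h1⟩ := hx
    obtain ⟨J2, h2⟩ := hy
    refine ⟨max J1 J2, fun J hJ φ p hp h => ?_⟩
    rw [map_mul, map_mul]
    exact mul_le_one' (h1 J (le_of_max_le_left hJ) φ p hp h)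
      (h2 J (le_of_max_le_right hJ) φ p hp h)

/-- the same for finitely many elements -/
theorem int_of_gens {K M R : Type} [Field K] [Field M] [NumberField M] [Algebra K M] [CommRing R]
    [Algebra K R] {Λ : Finset ℕ} (hΛ : ∀ l ∈ Λ, l.Prime) (G : Finset R)
    (hG : Algebra.adjoin K (G : Set R) = ⊤) (G' : Finset R) :
    ∃ J0 : ℕ, ∀ J, J0 ≤ J → ∀ φ : R →ₐ[K] M, ∀ p : Pl M, Bad Λ J p →
      (∀ g ∈ G, vl p (φ g) ≤ 1) → ∀ x ∈ G', vl p (φ x) ≤ 1 := by
  classical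
  choose J0 hJ0 using int_of_gen (M := M) hΛ G hG
  exact ⟨G'.sup J0, fun J hJ φ p hp h x hx => hJ0 x J ((Finset.le_sup hx).trans hJ) φ p hp h⟩

/-- **T7a**: other generators of the algebra and of the ideal -/
theorem SUM.strong {K M R : Type} [Field K] [Field M] [NumberField M] [Algebra K M] [CommRing R]
    [Algebra K R] {Λ : Finset ℕ} (hΛ : ∀ l ∈ Λ, l.Prime) {t : Ideal R} (h : SUM K M R Λ t)
    (G τ : Finset R) (s : ℕ) (hτ : t ^ s ≤ Ideal.span (τ : Set R)) :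
    ∃ J0 : ℕ, ∀ J, J0 ≤ J → ∀ f : R, f ≠ 0 → ∃ φ : R →ₐ[K] M, φ f ≠ 0 ∧
      ∀ p : Pl M, Bad Λ J p → (∀ g ∈ G, vl p (φ g) ≤ 1) ∧ ∃ x ∈ τ, vl p (φ x) = 1 := by
  classical
  obtain ⟨G1, τ1, J1, hG1, hτ1, h1⟩ := h
  have hc : ∀ x ∈ τ1, ∃ c : R → R, ∑ y ∈ τ, c y * y = x ^ s := by
    intro x hx
    have h2 : x ^ s ∈ Ideal.span (τ : Set R) :=
      hτ (Ideal.pow_mem_pow (by rw [← hτ1]; exact Ideal.subset_span hx) s)
    obtain ⟨c, -, hc⟩ := Submodule.mem_span_finset.1 h2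
    exact ⟨c, by simpa only [smul_eq_mul] using hc⟩
  let c : R → R → R := fun x => if hx : x ∈ τ1 then (hc x hx).choose else 0
  have hc' : ∀ x ∈ τ1, ∑ y ∈ τ, c x y * y = x ^ s := by
    intro x hx
    have h2 : c x = (hc x hx).choose := dif_pos hx
    rw [h2]
    exact (hc x hx).choose_spec
  obtain ⟨J2, h2⟩ := int_of_gens (M := M) hΛ G1 hG1
    (G ∪ τ ∪ τ1.biUnion fun x => τ.image (c x))
  refine ⟨max J1 J2, fun J hJ f hf => ?_⟩
  obtain ⟨φ, hφf, hφ⟩ := h1 f hf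
  refine ⟨φ, hφf, fun p hp => ?_⟩
  obtain ⟨h3, x, hx, hx1⟩ := hφ p (bad_mono (le_of_max_le_left hJ) hp)
  have h4 := h2 J (le_of_max_le_right hJ) φ p hp h3
  refine ⟨fun g hg => h4 g (Finset.mem_union_left _ (Finset.mem_union_left _ hg)), ?_⟩
  by_contra hcon
  push Not at hcon
  have h5 : ∀ y ∈ τ, vl p (φ y) < 1 := fun y hy => lt_of_le_of_ne
    (h4 y (Finset.mem_union_left _ (Finset.mem_union_right _ hy))) (hcon y hy)
  have h6 : vl p (φ (x ^ s)) < 1 := by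
    rw [← hc' x hx, map_sum]
    refine Valuation.map_sum_lt _ one_ne_zero fun y hy => ?_
    rw [map_mul, map_mul]
    exact mul_lt_one_of_nonneg_of_lt_one_right (h4 _ (Finset.mem_union_right _
      (Finset.mem_biUnion.2 ⟨x, hx, Finset.mem_image_of_mem _ hy⟩))) zero_le (h5 y hy)
  rw [map_pow, map_pow, hx1, one_pow] at h6
  exact lt_irrefl _ h6

/-- **T7c**: domination, one field -/
theorem SUM.sub {K M R R' : Type} [Field K] [Field M] [NumberField M] [Algebra K M] [CommRing R]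
    [Algebra K R] [CommRing R'] [Algebra K R'] [Algebra.FiniteType K R'] {Λ : Finset ℕ}
    (hΛ : ∀ l ∈ Λ, l.Prime) {t : Ideal R} (h : SUM K M R Λ t) (j : R' →ₐ[K] R)
    (hj : Function.Injective j) (t' : Ideal R') (s : ℕ) (ht : t ^ s ≤ t'.map j) :
    SUM K M R' Λ t' := by
  classical
  have hN : IsNoetherianRing R' := Algebra.FiniteType.isNoetherianRing K R'
  obtain ⟨G, hG⟩ := (Algebra.FiniteType.out : (⊤ : Subalgebra K R').FG)
  obtain ⟨τ, hτ⟩ := (IsNoetherian.noetherian t' : t'.FG)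
  obtain ⟨J0, h0⟩ := h.strong hΛ (G.image j) (τ.image j) s (by
    have h1 : t'.map j = Ideal.span ((τ.image j : Finset R) : Set R) := by
      rw [← hτ, Finset.coe_image]
      exact Ideal.map_span _ _
    rw [← h1]
    exact ht)
  refine ⟨G, τ, J0, hG, hτ, fun f hf => ?_⟩
  obtain ⟨φ, h1, h2⟩ := h0 J0 le_rfl (j f) (by rwa [Ne, map_eq_zero_iff _ hj])
  refine ⟨φ.comp j, h1, fun p hp => ?_⟩
  obtain ⟨h3, x, hx, hx1⟩ := h2 p hp
  obtain ⟨y, hy, rfl⟩ := Finset.mem_image.1 hx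
  exact ⟨fun g hg => h3 _ (Finset.mem_image_of_mem _ hg), y, hy, hx1⟩

/-- **T7c**: domination -/
theorem SU.sub {K R R' : Type} [Field K] [NumberField K] [CommRing R]
    [Algebra K R] [CommRing R'] [Algebra K R'] [Algebra.FiniteType K R'] {t : Ideal R}
    (h : SU K R t) (j : R' →ₐ[K] R) (hj : Function.Injective j) (t' : Ideal R') (s : ℕ)
    (ht : t ^ s ≤ t'.map j) : SU K R' t' := by
  intro Λ hΛ M0 _ _ _
  obtain ⟨M, iM, nM, aM, aM0, hM, h1⟩ := h Λ hΛ M0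
  exact ⟨M, iM, nM, aM, aM0, hM, h1.sub hΛ j hj t' s ht⟩

/-- **T8a** -/
theorem pd_of_su {K R : Type} [Field K] [NumberField K] [CommRing R] [Algebra K R] {t : Ideal R}
    (h : SU K R t) (X : Scheme.{0}) (s : X ⟶ Spec (CommRingCat.of K))
    (hX : DominatedOver K X (Spec (CommRingCat.of R)) s
      (Spec.map (CommRingCat.ofHom (algebraMap K R)))) : PotentiallyDense K X s := by
  obtain ⟨M, iM, nM, aM, -, -, G, τ, J, -, -, h1⟩ := h ∅ (by simp) K
  have hfin : FiniteDimensional K M := by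
    have : IsScalarTower ℚ K M := inferInstance
    exact Module.Finite.right ℚ K M
  refine PotentiallyDense.of_dominated hX ⟨M, inferInstance, inferInstance, hfin,
    Pool.Agent.Helper35.BR.dense_ratPts_spec' K M _ fun g hg => ?_⟩
  obtain ⟨φ, hφ, -⟩ := h1 g (fun h0 => hg (h0 ▸ IsNilpotent.zero))
  exact ⟨φ, hφ⟩

end Pool.Agent.Helper65.TW
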