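import Pool.Agent.Helper65.TW.Defs

/-!
# TOWERS: the class

`Tower K B`: the smallest class of pairs `(U, Z)`, `U = Spec R` an affine variety over `K` and `Z`
the zeros of an ideal `t` of `R`, which contains the pair `B` and is
closed under

* `affine`: `(A ^ n × U, A ^ n × Z ∪ W)`, `W` closed in `A ^ n × U`, containing no fibre over a point
  outside `Z`, such that the components of codimension one of its generic fibre have degree at most
  three in their first variable;
* `hom`: torsors of algebras over `U` which are Azumaya outside `Z`;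
* `quad`: quadric cones over `U` of rank at least three outside `Z`, the vertex is added to `Z`;
* `proj`: cones of projective varieties over `U` with many sections over a member of the class, the
  vertex is added to `Z`.
-/

set_option autoImplicit false

namespace Pool.Agent.Helper65.TW

open Pool.Agent.Helper69.CB TensorProduct MvPolynomial
open Pool.Agent.Helper35.BR (HomRing)

/-- the quadratic form of a symmetric matrix -/
noncomputable abbrev qf {R : Type} [CommRing R] {n : ℕ} (q : Matrix (Fin n) (Fin n) R) :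
    MvPolynomial (Fin n) R :=
  ∑ j, ∑ k, C (q j k) * X j * X k

/-- the `S`-integral points of `Spec R` minus the zeros of `t` are potentially dense -/
def IntPD (K : Type) [Field K] (R : Type) [CommRing R] [Algebra K R] (t : Ideal R) : Prop :=
  ∃ (L : Type) (_ : Field L) (_ : NumberField L) (_ : Algebra K L) (G τ : Finset R)
    (S : Set (Pool.Agent.Helper4.CB.Pl L)), S.Finite ∧ Algebra.adjoin K (G : Set R) = ⊤ ∧
    Ideal.span (τ : Set R) = t ∧ ∀ f : R, f ≠ 0 → ∃ φ : R →ₐ[K] L, φ f ≠ 0 ∧
      ∀ p : Pool.Agent.Helper4.CB.Pl L, p ∉ S → (∀ g ∈ G, vl p (φ g) ≤ 1) ∧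
        ∃ x ∈ τ, vl p (φ x) = 1

/-- the ideal of the coordinates -/
noncomputable abbrev coords {R : Type} [CommRing R] {n : ℕ}
    (J : Ideal (MvPolynomial (Fin n) R)) : Ideal (MvPolynomial (Fin n) R ⧸ J) :=
  Ideal.span (Set.range fun k => Ideal.Quotient.mk J (X k))

/-- the class of pairs over the pair `B` -/
inductive Tower (K : Type) [Field K] (B : Var K) : Var K → Prop
  | base : Tower K B B
  | affine (U : Var K) [IsDomain U.R] (hU : Tower K B U) (n s : ℕ)
      (W : Ideal (MvPolynomial (Fin n) U.R))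
      (hs : U.t ^ s ≤ Ideal.span {c | ∃ a ∈ W, ∃ d, c = a.coeff d})
      (hP : ∀ P : MvPolynomial (Fin n) (FractionRing U.R), Irreducible P →
        (∀ a ∈ W, P ∣ map (algebraMap U.R (FractionRing U.R)) a) → TriDeg 3 P) :
      Tower K B ⟨MvPolynomial (Fin n) U.R, U.t.map C * W⟩
  | hom (U : Var K) [IsDomain U.R] (hU : Tower K B U) (r : ℕ) (A : Fin r → Type)
      [∀ i, Ring (A i)] [∀ i, Algebra U.R (A i)] [∀ i, Module.Finite U.R (A i)] (m : Fin r → ℕ)
      (hm0 : ∀ i, 0 < m i)
      (hA : ∀ i, ∀ x ∈ U.t, x ≠ 0 →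
        IsAzumaya (Localization.Away x) (Localization.Away x ⊗[U.R] A i))
      (hm : ∀ i, Module.finrank (FractionRing U.R) (FractionRing U.R ⊗[U.R] A i) = m i ^ 2) :
      Tower K B ⟨Gen U.R (HomRing U.R A m), U.t.map (algebraMap U.R _)⟩
  | quad (U : Var K) [IsDomain U.R] (hU : Tower K B U) (n s : ℕ) (q : Matrix (Fin n) (Fin n) U.R)
      (hq : q.IsSymm)
      (hs : U.t ^ s ≤ Ideal.span (Set.range fun fg : (Fin 3 → Fin n) × (Fin 3 → Fin n) =>
        (q.submatrix fg.1 fg.2).det)) :
      Tower K B ⟨Gen U.R (MvPolynomial (Fin n) U.R ⧸ Ideal.span {qf q}),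
        U.t.map (algebraMap U.R _) *
          Ideal.span (Set.range fun k => Ideal.Quotient.mk _ (Ideal.Quotient.mk _ (X k)))⟩
  | proj (U V : Var K) (hU : Tower K B U) (hV : Tower K B V) [Algebra U.R V.R]
      [IsScalarTower K U.R V.R] (hUV : Function.Injective (algebraMap U.R V.R)) (n s : ℕ)
      (hs : V.t ^ s ≤ U.t.map (algebraMap U.R V.R)) (J : Ideal (MvPolynomial (Fin n) U.R))
      [J.IsPrime] (hJ : ∀ f ∈ J, ∀ d : ℕ, homogeneousComponent d f ∈ J)
      (hψ : ∀ f : MvPolynomial (Fin n) U.R ⧸ J, f ≠ 0 →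
        ∃ ψ : (MvPolynomial (Fin n) U.R ⧸ J) →ₐ[U.R] V.R, ψ f ≠ 0 ∧
          ∃ k, ψ (Ideal.Quotient.mk J (X k)) ≠ 0) :
      Tower K B ⟨MvPolynomial (Fin n) U.R ⧸ J, U.t.map (algebraMap U.R _) * coords J⟩

end Pool.Agent.Helper65.TW
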