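import Pool.Agent.Helper65.CL.Defs
import Pool.Agent.Helper65.CB.Dom
import Pool.Agent.Helper35.BR.Defs
import Pool.Agent.Helper35.Rel.Final

/-!
# TOWERS: definitions

`SU K R t`: the `K`-variety `Spec R` minus the zeros of the ideal `t` has sieve points.
`Tower K`: the class of varieties built from points and cones by small divisors, torsors of
Azumaya algebras, quadrics, projective schemes with many sections, and domination.
-/

set_option autoImplicit false

namespace Pool.Agent.Helper65.TW

open NumberField Pool.Agent.Helper4.CB Pool.Agent.Helper69.CB TensorProduct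
open Pool.Agent.Helper65.CL (Bad)
open Pool.Agent.Helper35.BR (HomRing)

/-- sieve points of `(R, t)` with values in the number field `M` -/
def SUM (K : Type) [Field K] (M : Type) [Field M] [NumberField M] [Algebra K M]
    (R : Type) [CommRing R] [Algebra K R] (Λ : Finset ℕ) (t : Ideal R) : Prop :=
  ∃ (G τ : Finset R) (J : ℕ), Algebra.adjoin K (G : Set R) = ⊤ ∧ Ideal.span (τ : Set R) = t ∧
    ∀ f : R, f ≠ 0 → ∃ φ : R →ₐ[K] M, φ f ≠ 0 ∧ ∀ p : Pl M, Bad Λ J p →
      (∀ g ∈ G, vl p (φ g) ≤ 1) ∧ ∃ x ∈ τ, vl p (φ x) = 1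

/-- sieve points of `(R, t)` -/
def SU (K : Type) [Field K] [NumberField K] (R : Type) [CommRing R] [Algebra K R]
    (t : Ideal R) : Prop :=
  ∀ Λ : Finset ℕ, (∀ l ∈ Λ, l.Prime) → ∀ (M0 : Type) [Field M0] [NumberField M0] [Algebra K M0],
    ∃ (M : Type) (_ : Field M) (_ : NumberField M) (_ : Algebra K M) (_ : Algebra M0 M)
      (_ : IsScalarTower K M0 M), SUM K M R Λ t

/-- the elements of `B` which some nonzero element of `R` makes nilpotent -/
def tors (R B : Type) [CommRing R] [IsDomain R] [CommRing B] [Algebra R B] : Ideal B where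
  carrier := {b | ∃ r : R, r ≠ 0 ∧ IsNilpotent (r • b)}
  zero_mem' := ⟨1, one_ne_zero, by rw [smul_zero]; exact IsNilpotent.zero⟩
  add_mem' := by
    rintro b c ⟨r, hr, h1⟩ ⟨s, hs, h2⟩
    refine ⟨r * s, mul_ne_zero hr hs, ?_⟩
    rw [smul_add]
    refine Commute.isNilpotent_add (Commute.all _ _) ?_ ?_
    · have h3 : (r * s) • b = algebraMap R B s * (r • b) := by
        rw [mul_comm r s, mul_smul, Algebra.smul_def s]
      rw [h3]
      exact (Commute.all _ _).isNilpotent_mul_left h1
    · have h3 : (r * s) • c = algebraMap R B r * (s • c) := by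
        rw [mul_smul, Algebra.smul_def r]
      rw [h3]
      exact (Commute.all _ _).isNilpotent_mul_left h2
  smul_mem' := by
    rintro c b ⟨r, hr, h⟩
    refine ⟨r, hr, ?_⟩
    have h3 : r • (c • b) = c * (r • b) := by
      rw [smul_eq_mul, mul_smul_comm]
    rw [h3]
    exact (Commute.all _ _).isNilpotent_mul_left h

/-- the generic part of the `R`-algebra `B` -/
abbrev Gen (R B : Type) [CommRing R] [IsDomain R] [CommRing B] [Algebra R B] : Type :=
  B ⧸ tors R B

/-- an affine variety over `K` with an ideal -/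
structure Var (K : Type) [Field K] where
  R : Type
  [ring : CommRing R]
  [alg : Algebra K R]
  t : Ideal R

attribute [instance] Var.ring Var.alg

end Pool.Agent.Helper65.TW
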