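import Pool.Agent.Helper65.TW.Defs2
import Pool.Agent.Helper82.BR.Compl
import Pool.Agent.Helper35.BR.End

/-!
# TOWERS: frames (text only, never import)
-/

set_option autoImplicit false

namespace Pool.Agent.Helper65.TW.Fr

open NumberField Pool.Agent.Helper4.CB Pool.Agent.Helper69.CB TensorProduct IsDedekindDomain
open Pool.Agent.Helper65.CL (Bad)
open Pool.Agent.Helper35.BR (HomRing Over lift conj HVar cd)
open Pool.Agent.Helper82.BR (below)
open Pool.Agent.Helper65.TW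
open AlgebraicGeometry CategoryTheory Pool.Agent.Helper15
open Pool.Agent.Helper65.CB (DominatedOver)

/-- **T1** (DONE: Helper8/TW/BadOver) bad places of `L` are over bad places of `M` -/
theorem bad_over {M L : Type} [Field M] [NumberField M] [Field L] [NumberField L] [Algebra M L]
    {Λ : Finset ℕ} (hΛ : ∀ l ∈ Λ, l.Prime) (hζ : ∀ l ∈ Λ, ∃ ζ : M, IsPrimitiveRoot ζ l)
    (h4 : ∃ i : M, IsPrimitiveRoot i 4) (J : ℕ) :
    ∃ J1 : ℕ, ∀ J', J1 ≤ J' → ∀ w : Pl L, Bad Λ J' w → Bad Λ J (below M w) := by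
  sorry

/-- **T1b** (helper82) -/
theorem vl_below {M L : Type} [Field M] [NumberField M] [Field L] [NumberField L] [Algebra M L]
    (w : Pl L) (x : M) :
    (vl w (algebraMap M L x) ≤ 1 ↔ vl (below M w) x ≤ 1) ∧
      (vl w (algebraMap M L x) = 1 ↔ vl (below M w) x = 1) := by
  sorry

/-- **T2** (helper3) -/
theorem bi_pid (L : Type) [Field L] [NumberField L] {Λ : Finset ℕ} (hΛ : ∀ l ∈ Λ, l.Prime) :
    ∃ J0 : ℕ, ∀ J, J0 ≤ J → IsPrincipalIdealRing (BI L Λ J) := by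
  sorry

/-- **T2b** (helper3) -/
theorem bi_frac (L : Type) [Field L] [NumberField L] (Λ : Finset ℕ) (J : ℕ) (x : L) :
    ∃ b ∈ BI L Λ J, ∃ c ∈ BI L Λ J, c ≠ 0 ∧ x = b / c := by
  sorry

/-- **T3** (DONE: Helper23/TW/Conj) -/
theorem exists_conj {L : Type} [Field L] (B : Subring L) [IsPrincipalIdealRing B]
    (hfrac : ∀ x : L, ∃ b ∈ B, ∃ c ∈ B, c ≠ 0 ∧ x = b / c) {m N : ℕ}
    (X : Fin N → Matrix (Fin m) (Fin m) L) (h1 : ∃ s, X s = 1) (β : Fin N → Fin N → Fin N → L)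
    (hβ : ∀ s t u, β s t u ∈ B) (hX : ∀ s t, X s * X t = ∑ u, β s t u • X u) :
    ∃ v : (Matrix (Fin m) (Fin m) L)ˣ, ∀ s p q,
      ((v : Matrix (Fin m) (Fin m) L) * X s *
        ((v⁻¹ : (Matrix (Fin m) (Fin m) L)ˣ) : Matrix (Fin m) (Fin m) L)) p q ∈ B := by
  sorry

/-- **T4** (DONE: Helper18/TW/Dense, Helper82/TW/SLZ, Helper98/TW/SL) -/
theorem exists_int {Ω : Type} [Field Ω] [CharZero Ω] {r : ℕ} (m : Fin r → ℕ)
    (F : MvPolynomial (Σ i : Fin r, Fin (m i) × Fin (m i)) Ω)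
    (u0 : ∀ i, Matrix.SpecialLinearGroup (Fin (m i)) Ω)
    (h : MvPolynomial.eval (fun x => (u0 x.1 : Matrix (Fin (m x.1)) (Fin (m x.1)) Ω) x.2.1 x.2.2) F
      ≠ 0) :
    ∃ u : ∀ i, Matrix.SpecialLinearGroup (Fin (m i)) ℤ,
      MvPolynomial.eval (fun x =>
        (((u x.1 : Matrix (Fin (m x.1)) (Fin (m x.1)) ℤ) x.2.1 x.2.2 : ℤ) : Ω)) F ≠ 0 := by
  sorry

section Hom

variable {K : Type} [Field K] {R : Type} [CommRing R] [IsDomain R] [Algebra K R] {r : ℕ}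
    (A : Fin r → Type) [∀ i, Ring (A i)] [∀ i, Algebra R (A i)] [∀ i, Module.Finite R (A i)]
    (m : Fin r → ℕ)

/-- **T5a** (helper78) the generic part is a domain (embed in `S[u][1/det]`, Helper35.BR.End) -/
theorem tors_hom_prime [CharZero R]
    (hc : ∀ i, Algebra.IsCentral (FractionRing R) (FractionRing R ⊗[R] A i))
    (hs : ∀ i, IsSimpleRing (FractionRing R ⊗[R] A i))
    (hm : ∀ i, Module.finrank (FractionRing R) (FractionRing R ⊗[R] A i) = m i ^ 2) :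
    (tors R (HomRing R A m)).IsPrime := by
  sorry

/-- **T5b** (helper78) generators -/
theorem hom_gen (G : Finset R) (hG : Algebra.adjoin K (G : Set R) = ⊤) :
    ∃ (N : Fin r → ℕ) (a : ∀ i, Fin (N i) → A i), (∀ i, ∃ s, a i s = 1) ∧
      (∀ i, Submodule.span R (Set.range (a i)) = ⊤) ∧
      Algebra.adjoin K ((algebraMap R (HomRing R A m) '' (G : Set R)) ∪
        Set.range (fun x : Σ i : Fin r, Fin (N i) × Fin (m i) × Fin (m i) =>
          cd R A m ⟨x.1, a x.1 x.2.1, x.2.2.1, x.2.2.2⟩)) = ⊤ := by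
  sorry

/-- **T6a** (helper35) END with a predicate on the points stable under `SL_m(ℤ)` -/
theorem end_points_int [CharZero R]
    (hc : ∀ i, Algebra.IsCentral (FractionRing R) (FractionRing R ⊗[R] A i))
    (hs : ∀ i, IsSimpleRing (FractionRing R ⊗[R] A i))
    (hm : ∀ i, Module.finrank (FractionRing R) (FractionRing R ⊗[R] A i) = m i ^ 2)
    (L : Type) [Field L] [CharZero L] [Algebra K L]
    (Good : (R →ₐ[K] L) → (∀ i, A i →+* Matrix (Fin (m i)) (Fin (m i)) L) → Prop)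
    (hstab : ∀ φ ρ, Good φ ρ → ∀ u : ∀ i, Matrix.SpecialLinearGroup (Fin (m i)) ℤ,
      Good φ (fun i => (conj (slU L (u i))).comp (ρ i)))
    (hpt : ∀ f : R, f ≠ 0 → ∃ φ : R →ₐ[K] L, φ f ≠ 0 ∧ ∃ ρ, (∀ i, Over (φ : R →+* L) (ρ i)) ∧
      Good φ ρ) (g : HomRing R A m) (hg : g ∉ tors R (HomRing R A m)) (f : R) (hf : f ≠ 0) :
    ∃ (φ : R →ₐ[K] L) (ρ : ∀ i, A i →+* Matrix (Fin (m i)) (Fin (m i)) L)
      (hρ : ∀ i, Over (φ : R →+* L) (ρ i)), Good φ ρ ∧ φ f ≠ 0 ∧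
        lift (φ : R →+* L) ρ hρ g ≠ 0 := by
  sorry

end Hom

/-- **T7a** (helper65) other generators -/
theorem SUM.strong {K M R : Type} [Field K] [Field M] [NumberField M] [Algebra K M] [CommRing R]
    [Algebra K R] {Λ : Finset ℕ} (hΛ : ∀ l ∈ Λ, l.Prime) {t : Ideal R} (h : SUM K M R Λ t)
    (G τ : Finset R) (s : ℕ) (hτ : t ^ s ≤ Ideal.span (τ : Set R)) :
    ∃ J0 : ℕ, ∀ J, J0 ≤ J → ∀ f : R, f ≠ 0 → ∃ φ : R →ₐ[K] M, φ f ≠ 0 ∧
      ∀ p : Pl M, Bad Λ J p → (∀ g ∈ G, vl p (φ g) ≤ 1) ∧ ∃ x ∈ τ, vl p (φ x) = 1 := by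
  sorry

/-- **T7b** (helper60) small divisors -/
theorem su_affine {K M R : Type} [Field K] [Field M] [NumberField M] [Algebra K M] [CommRing R]
    [IsDomain R] [Algebra K R] {Λ : Finset ℕ} (hΛ : ∀ l ∈ Λ, l.Prime) {t : Ideal R}
    (h : SUM K M R Λ t) {n s : ℕ} (a : MvPolynomial (Fin n) R)
    (hs : t ^ s ≤ Ideal.span (Set.range fun d => a.coeff d))
    (ha : ∀ P : MvPolynomial (Fin n) (FractionRing R), Irreducible P →
      P ∣ MvPolynomial.map (algebraMap R (FractionRing R)) a → TriDeg 3 P) (ha0 : a ≠ 0) :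
    SUM K M (Localization.Away a) Λ (t.map (algebraMap R (Localization.Away a))) := by
  sorry

/-- **T0** (helper62) cones -/
theorem su_cone {K : Type} [Field K] [NumberField K] {N : ℕ} (I : Ideal (MvPolynomial (Fin N) K))
    [I.IsPrime] (hI : ∀ f ∈ I, ∀ d : ℕ, MvPolynomial.homogeneousComponent d f ∈ I)
    (hX : ∃ k, MvPolynomial.X k ∉ I) (hd : Pool.Agent.Helper35.Rel.DenseZeros I) :
    SU K (MvPolynomial (Fin N) K ⧸ I)
      (Ideal.span (Set.range fun k => Ideal.Quotient.mk I (MvPolynomial.X k))) := by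
  sorry

/-- **T7c** (helper65) domination -/
theorem su_sub {K M R R' : Type} [Field K] [Field M] [NumberField M] [Algebra K M] [CommRing R]
    [Algebra K R] [CommRing R'] [Algebra K R'] [Algebra.FiniteType K R'] {Λ : Finset ℕ}
    (hΛ : ∀ l ∈ Λ, l.Prime) {t : Ideal R} (h : SUM K M R Λ t) (j : R' →ₐ[K] R)
    (hj : Function.Injective j) (t' : Ideal R') (s : ℕ) (ht : t ^ s ≤ t'.map j) :
    SUM K M R' Λ t' := by
  sorry

/-- **T9** (helper92) projective schemes with many sections -/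
theorem su_proj {K M R S : Type} [Field K] [Field M] [NumberField M] [Algebra K M] [CommRing R]
    [Algebra K R] [Algebra.FiniteType K R] [CommRing S] [IsDomain S] [Algebra K S] [Algebra R S]
    [IsScalarTower K R S] {Λ : Finset ℕ} (hΛ : ∀ l ∈ Λ, l.Prime) {tS : Ideal S}
    (h : SUM K M S Λ tS) (t : Ideal R) (s : ℕ) (ht : tS ^ s ≤ t.map (algebraMap R S)) {N : ℕ}
    (I : Ideal (MvPolynomial (Fin N) R))
    (hI : ∀ f ∈ I, ∀ d : ℕ, MvPolynomial.homogeneousComponent d f ∈ I)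
    (hψ : ∀ f : MvPolynomial (Fin N) R ⧸ I, f ≠ 0 →
      ∃ ψ : (MvPolynomial (Fin N) R ⧸ I) →ₐ[R] S, ψ f ≠ 0 ∧
        ∃ k, ψ (Ideal.Quotient.mk I (MvPolynomial.X k)) ≠ 0) :
    SUM K M (MvPolynomial (Fin N) R ⧸ I) Λ (t.map (algebraMap R (MvPolynomial (Fin N) R ⧸ I)) *
      Ideal.span (Set.range fun k => Ideal.Quotient.mk I (MvPolynomial.X k))) := by
  sorry

/-- **T6b** (helper47 / helper28: rep_good over the localisations, alg_br) splitting away from `t` -/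
theorem split_points {K M R : Type} [Field K] [Field M] [NumberField M] [Algebra K M] [CommRing R]
    [IsDomain R] [Algebra K R] {Λ : Finset ℕ} (hΛ : ∀ l ∈ Λ, l.Prime) {t : Ideal R}
    (h : SUM K M R Λ t) {r : ℕ}
    (A : Fin r → Type) [∀ i, Ring (A i)] [∀ i, Algebra R (A i)] [∀ i, Module.Finite R (A i)]
    (m : Fin r → ℕ) (hm0 : ∀ i, 0 < m i)
    (haz : ∀ i, ∀ x ∈ t, x ≠ 0 →
      IsAzumaya (Localization.Away x) (Localization.Away x ⊗[R] A i))
    (hm : ∀ i, Module.finrank (FractionRing R) (FractionRing R ⊗[R] A i) = m i ^ 2)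
    (hmΛ : ∀ i, ∀ l : ℕ, l.Prime → l ∣ m i → l ∈ Λ)
    (hζ : ∀ l ∈ Λ, ∃ ζ : M, IsPrimitiveRoot ζ l) (h4 : ∃ i : M, IsPrimitiveRoot i 4)
    (G τ : Finset R) (hτ : Ideal.span (τ : Set R) = t) :
    ∃ (J : ℕ) (L : Type) (_ : Field L) (_ : NumberField L) (_ : Algebra M L) (_ : Algebra K L)
      (_ : IsScalarTower K M L), ∀ f : R, f ≠ 0 → ∃ φ : R →ₐ[K] M, φ f ≠ 0 ∧
        (∀ p : Pl M, Bad Λ J p → (∀ g ∈ G, vl p (φ g) ≤ 1) ∧ ∃ x ∈ τ, vl p (φ x) = 1) ∧
        ∀ i, ∃ ρ : A i →+* Matrix (Fin (m i)) (Fin (m i)) L,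
          Over ((algebraMap M L).comp (φ : R →+* M)) ρ := by
  sorry

/-- **T6** (helper65) torsors -/
theorem su_hom {K R : Type} [Field K] [NumberField K] [CommRing R]
    [IsDomain R] [Algebra K R] {t : Ideal R} (h : SU K R t) {r : ℕ}
    (A : Fin r → Type) [∀ i, Ring (A i)] [∀ i, Algebra R (A i)] [∀ i, Module.Finite R (A i)]
    (m : Fin r → ℕ) (hm0 : ∀ i, 0 < m i) (ht : t ≠ ⊥)
    (haz : ∀ i, ∀ x ∈ t, x ≠ 0 →
      IsAzumaya (Localization.Away x) (Localization.Away x ⊗[R] A i))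
    (hm : ∀ i, Module.finrank (FractionRing R) (FractionRing R ⊗[R] A i) = m i ^ 2) :
    SU K (Gen R (HomRing R A m)) (t.map (algebraMap R (Gen R (HomRing R A m)))) := by
  sorry

/-- **T8a** (helper65) -/
theorem pd_of_su {K R : Type} [Field K] [NumberField K] [CommRing R] [Algebra K R] {t : Ideal R}
    (h : SU K R t) (X : Scheme.{0}) (s : X ⟶ Spec (CommRingCat.of K))
    (hX : DominatedOver K X (Spec (CommRingCat.of R)) s
      (Spec.map (CommRingCat.ofHom (algebraMap K R)))) : PotentiallyDense K X s := by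
  sorry

/-- **TQ** (helper33 / helper8 / helper49) quadric cones; the ideal of the 3 x 3 minors -/
theorem su_quad {K R : Type} [Field K] [NumberField K] [CommRing R]
    [IsDomain R] [Algebra K R] [Algebra.FiniteType K R] {t : Ideal R} (h : SU K R t)
    (ht : t ≠ ⊥) {N s : ℕ} (q : Matrix (Fin N) (Fin N) R) (hq : q.IsSymm)
    (hs : t ^ s ≤ Ideal.span (Set.range fun fg : (Fin 3 → Fin N) × (Fin 3 → Fin N) =>
      (q.submatrix fg.1 fg.2).det)) :
    SU K (Gen R (MvPolynomial (Fin N) R ⧸ Ideal.span {∑ j, ∑ k,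
        MvPolynomial.C (q j k) * MvPolynomial.X j * MvPolynomial.X k}))
      (t.map (algebraMap R _)) := by
  sorry

end Pool.Agent.Helper65.TW.Fr
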