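import Pool.Agent.Helper65.TW.HomPre
import Pool.Agent.Helper78.TW.T5b
import Pool.Agent.Helper79.BR.End
import Pool.Agent.Helper47.TW.Split

/-!
# TOWERS: torsors
-/

set_option autoImplicit false

namespace Pool.Agent.Helper65.TW

open NumberField Pool.Agent.Helper4.CB Pool.Agent.Helper69.CB TensorProduct
open Pool.Agent.Helper65.CL (Bad)
open Pool.Agent.Helper65.BR (bad_mono)
open Pool.Agent.Helper35.BR (HomRing Over lift conj HVar cd univ univ_apply)
open Pool.Agent.Helper35.TW (slUnit slUnit_coe)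
open Pool.Agent.Helper28.TW (badInt mem_badInt)

theorem bad_subset {L : Type} [Field L] [NumberField L] {Λ Λ' : Finset ℕ} (h : Λ ⊆ Λ') {J : ℕ}
    {w : Pl L} (hw : Bad Λ J w) : Bad Λ' J w := by
  obtain ⟨l, hl, h1⟩ := hw
  exact ⟨l, h hl, h1⟩

/-- **T6**, one field -/
theorem sum_hom {K M R : Type} [Field K] [Field M] [NumberField M] [Algebra K M] [CommRing R]
    [IsDomain R] [Algebra K R] {Λ Λ0 : Finset ℕ} (hΛ : ∀ l ∈ Λ, l.Prime) (hsub : Λ0 ⊆ Λ)
    {t : Ideal R} (h : SUM K M R Λ t) {r : ℕ}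
    (A : Fin r → Type) [∀ i, Ring (A i)] [∀ i, Algebra R (A i)] [∀ i, Module.Finite R (A i)]
    (m : Fin r → ℕ) (hm0 : ∀ i, 0 < m i) (ht : t ≠ ⊥)
    (haz : ∀ i, ∀ x ∈ t, x ≠ 0 →
      IsAzumaya (Localization.Away x) (Localization.Away x ⊗[R] A i))
    (hm : ∀ i, Module.finrank (FractionRing R) (FractionRing R ⊗[R] A i) = m i ^ 2)
    (hmΛ : ∀ i, ∀ l : ℕ, l.Prime → l ∣ m i → l ∈ Λ)
    (hζ : ∀ l ∈ Λ, ∃ ζ : M, IsPrimitiveRoot ζ l) (h4 : ∃ i : M, IsPrimitiveRoot i 4) :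
    ∃ (L : Type) (_ : Field L) (_ : NumberField L) (_ : Algebra M L) (_ : Algebra K L)
      (_ : IsScalarTower K M L), SUM K L (Gen R (HomRing R A m)) Λ0
        (t.map (algebraMap R (Gen R (HomRing R A m)))) := by
  classical
  obtain ⟨x0, hx0, hx00⟩ := Submodule.exists_mem_ne_zero_of_ne_bot ht
  have hcs : ∀ i, Algebra.IsCentral (FractionRing R) (FractionRing R ⊗[R] A i) ∧
      IsSimpleRing (FractionRing R ⊗[R] A i) := fun i =>
    csa_of_away (A i) (hm0 i) x0 hx00 (haz i x0 hx0 hx00) (hm i)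
  obtain ⟨G, τ, -, hG, hτ, -⟩ := id h
  have hft : Algebra.FiniteType K R := ⟨⟨G, hG⟩⟩
  have hN : IsNoetherianRing R := Algebra.FiniteType.isNoetherianRing K R
  obtain ⟨N, a, ha1, ha, hgen⟩ := Pool.Agent.Helper78.TW.hom_gen (K := K) A m G hG
  choose β hβ using fun i => exists_beta (a i) (ha i)
  let Gβ : Finset R := Finset.univ.biUnion fun i : Fin r =>
    Finset.univ.image fun x : Fin (N i) × Fin (N i) × Fin (N i) => β i x.1 x.2.1 x.2.2
  have hGβ : ∀ i s u v, β i s u v ∈ Gβ := fun i s u v =>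
    Finset.mem_biUnion.2 ⟨i, Finset.mem_univ _, Finset.mem_image.2 ⟨(s, u, v), Finset.mem_univ _,
      rfl⟩⟩
  obtain ⟨J, L, iL, nL, aML, aKL, hKML, hpt⟩ :=
    split_points hΛ h ht A m hm0 haz hm hmΛ hζ h4 (G ∪ Gβ) τ hτ
  refine ⟨L, iL, nL, aML, aKL, hKML, ?_⟩
  obtain ⟨J2, hJ2⟩ := Pool.Agent.Helper28.TW.badInt_pid L (Λ := Λ) (two_le hΛ)
  set J1 : ℕ := max (J + Module.finrank M L) J2 with hJ1
  obtain ⟨hpid, hfrac⟩ := hJ2 J1 (le_max_right _ _)
  set B : Subring L := badInt L Λ J1 with hB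
  have hbel : ∀ w : Pl L, Bad Λ J1 w → Bad Λ J (Pool.Agent.Helper82.BR.below M w) := fun w hw =>
    Pool.Agent.Helper82.TW.bad_below hΛ hζ (fun _ => h4) (le_max_left _ _) w hw
  -- the predicate
  let Good : (R →ₐ[K] L) → (∀ i, A i →+* Matrix (Fin (m i)) (Fin (m i)) L) → Prop := fun φ ρ =>
    ((∀ g ∈ G, φ g ∈ B) ∧ ∀ w : Pl L, Bad Λ J1 w → ∃ x ∈ τ, vl w (φ x) = 1) ∧
      ∀ i s p q, ρ i (a i s) p q ∈ B
  have hst : ∀ φ ρ (V : ∀ i, Matrix (Fin (m i)) (Fin (m i)) ℤ) (hV : ∀ i, (V i).det = 1),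
      Good φ ρ → Good φ (fun i => (conj (slUnit L (V i) (hV i))).comp (ρ i)) :=
    fun φ ρ V hV hg => ⟨hg.1, fun i s p q => conj_entries B (V i) (hV i) (hg.2 i s) p q⟩
  have hpt2 : ∀ f : R, f ≠ 0 → ∃ (φ : R →ₐ[K] L)
      (ρ : ∀ i, A i →+* Matrix (Fin (m i)) (Fin (m i)) L),
      Good φ ρ ∧ φ f ≠ 0 ∧ ∀ i, Over (φ : R →+* L) (ρ i) := by
    intro f hf
    obtain ⟨φ, hφf, hφ, hρ⟩ := hpt f hf
    choose ρ hρ using hρ
    have hin : ∀ g ∈ G ∪ Gβ, algebraMap M L (φ g) ∈ B := by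
      intro g hg w hw
      exact (Pool.Agent.Helper82.TW.vl_algebraMap_le_one w _).2 ((hφ _ (hbel w hw)).1 g hg)
    choose v hv using fun i => exists_integral_conj B hpid hfrac
      ((algebraMap M L).comp (φ : R →+* M)) (ρ i) (hρ i) (a i) (ha1 i) (β i) (hβ i)
      (fun s u v => hin _ (Finset.mem_union_right _ (hGβ i s u v)))
    refine ⟨(IsScalarTower.toAlgHom K M L).comp φ, fun i => (conj (v i)).comp (ρ i),
      ⟨⟨fun g hg => hin g (Finset.mem_union_left _ hg), fun w hw => ?_⟩,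
        fun i s p q => hv i s p q⟩, ?_, fun i => (hρ i).conj (v i)⟩
    · obtain ⟨x, hx, hx1⟩ := (hφ _ (hbel w hw)).2
      exact ⟨x, hx, (Pool.Agent.Helper82.TW.vl_algebraMap_eq_one w _).2 hx1⟩
    · have h1 : algebraMap M L (φ f) ≠ 0 := by
        rwa [Ne, map_eq_zero_iff _ (algebraMap M L).injective]
      exact h1
  obtain ⟨δ, hδ, hend⟩ := Pool.Agent.Helper35.TW.end_points_sl A m (fun i => (hcs i).1)
    (fun i => (hcs i).2) hm L Good hst hpt2
  have hft2 : Algebra.FiniteType R (HomRing R A m) := Pool.Agent.Helper79.BR.finiteType_homRing A m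
  obtain ⟨δ2, hδ2, htors⟩ := Pool.Agent.Helper78.TW.exists_bound65 (R := R) (H := HomRing R A m)
  let π : HomRing R A m →ₐ[K] Gen R (HomRing R A m) :=
    Ideal.Quotient.mkₐ K (tors R (HomRing R A m))
  let GH : Finset (HomRing R A m) := G.image (algebraMap R (HomRing R A m)) ∪
    Finset.univ.image (fun x : Σ i : Fin r, Fin (N i) × Fin (m i) × Fin (m i) =>
      cd R A m ⟨x.1, a x.1 x.2.1, x.2.2.1, x.2.2.2⟩)
  have hGH : Algebra.adjoin K (GH : Set (HomRing R A m)) = ⊤ := by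
    rw [← hgen, Finset.coe_union, Finset.coe_image, Finset.coe_image, Finset.coe_univ,
      Set.image_univ]
  refine ⟨GH.image π, τ.image (algebraMap R (Gen R (HomRing R A m))), J1, ?_, ?_,
    fun f hf => ?_⟩
  · rw [Finset.coe_image, ← AlgHom.map_adjoin, hGH, Algebra.map_top]
    exact (AlgHom.range_eq_top π).2 Ideal.Quotient.mk_surjective
  · rw [Finset.coe_image, ← hτ]
    exact (Ideal.map_span _ _).symm
  · obtain ⟨g, rfl⟩ := Ideal.Quotient.mk_surjective f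
    have hg : g ∉ tors R (HomRing R A m) := fun h0 => hf (Ideal.Quotient.eq_zero_iff_mem.2 h0)
    have hnil : ¬ IsNilpotent (g * algebraMap R (HomRing R A m) δ2 *
        algebraMap R (HomRing R A m) δ) := by
      intro h0
      apply hg
      refine ⟨δ2 * δ, mul_ne_zero hδ2 hδ, ?_⟩
      rw [Algebra.smul_def, map_mul, mul_comm, ← mul_assoc]
      exact h0
    obtain ⟨χ, ⟨⟨hχ1, hχ2⟩, hχ3⟩, hχ⟩ := hend _ hnil
    rw [map_mul, map_mul] at hχ
    obtain ⟨χ', hχ'⟩ := Pool.Agent.Helper78.TW.exists_lift_gen htors χ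
      (right_ne_zero_of_mul (left_ne_zero_of_mul hχ))
    refine ⟨χ', ?_, fun w hw => ?_⟩
    · rw [hχ']
      exact left_ne_zero_of_mul (left_ne_zero_of_mul hχ)
    · have hw' : Bad Λ J1 w := bad_subset hsub hw
      refine ⟨fun y hy => ?_, ?_⟩
      · obtain ⟨x, hx, rfl⟩ := Finset.mem_image.1 hy
        have h1 : χ' (π x) = χ x := hχ' x
        rw [h1]
        rcases Finset.mem_union.1 hx with hx | hx
        · obtain ⟨g0, hg0, rfl⟩ := Finset.mem_image.1 hx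
          exact hχ1 g0 hg0 w hw'
        · obtain ⟨⟨i, s, p, q⟩, -, rfl⟩ := Finset.mem_image.1 hx
          exact hχ3 i s p q w hw'
      · obtain ⟨x, hx, hx1⟩ := hχ2 w hw'
        refine ⟨_, Finset.mem_image_of_mem _ hx, ?_⟩
        have h1 : χ' (algebraMap R (Gen R (HomRing R A m)) x) =
            χ (algebraMap R (HomRing R A m) x) := hχ' _
        rw [h1]
        exact hx1

/-- an extension with roots of unity -/
theorem exists_roots (M0 : Type) [Field M0] [NumberField M0] {Λ : Finset ℕ}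
    (hΛ : ∀ l ∈ Λ, l.Prime) : ∃ (M : Type) (_ : Field M) (_ : NumberField M) (_ : Algebra M0 M),
      (∀ l ∈ Λ, ∃ ζ : M, IsPrimitiveRoot ζ l) ∧ ∃ i : M, IsPrimitiveRoot i 4 := by
  classical
  set n : ℕ := 4 * ∏ l ∈ Λ, l with hn
  have hn0 : n ≠ 0 := mul_ne_zero (by norm_num) (Finset.prod_ne_zero_iff.2 fun l hl =>
    (hΛ l hl).ne_zero)
  have : NeZero n := ⟨hn0⟩
  have hnf : NumberField (CyclotomicField n M0) := IsCyclotomicExtension.numberField {n} M0 _
  have hζ := IsCyclotomicExtension.zeta_spec n M0 (CyclotomicField n M0)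
  refine ⟨CyclotomicField n M0, inferInstance, hnf, inferInstance, fun l hl => ?_, ?_⟩
  · obtain ⟨k, hk⟩ : l ∣ n := (Finset.dvd_prod_of_mem _ hl).mul_left _
    exact ⟨_, hζ.pow (Nat.pos_of_ne_zero hn0) (hk.trans (mul_comm _ _))⟩
  · exact ⟨_, hζ.pow (Nat.pos_of_ne_zero hn0) (hn.trans (mul_comm _ _))⟩

/-- **T6**: torsors of algebras which are Azumaya away from `t` -/
theorem su_hom {K R : Type} [Field K] [NumberField K] [CommRing R]
    [IsDomain R] [Algebra K R] {t : Ideal R} (h : SU K R t) {r : ℕ}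
    (A : Fin r → Type) [∀ i, Ring (A i)] [∀ i, Algebra R (A i)] [∀ i, Module.Finite R (A i)]
    (m : Fin r → ℕ) (hm0 : ∀ i, 0 < m i) (ht : t ≠ ⊥)
    (haz : ∀ i, ∀ x ∈ t, x ≠ 0 →
      IsAzumaya (Localization.Away x) (Localization.Away x ⊗[R] A i))
    (hm : ∀ i, Module.finrank (FractionRing R) (FractionRing R ⊗[R] A i) = m i ^ 2) :
    SU K (Gen R (HomRing R A m)) (t.map (algebraMap R (Gen R (HomRing R A m)))) := by
  classical
  intro Λ0 hΛ0 M0 _ _ _
  set Λ : Finset ℕ := Λ0 ∪ Finset.univ.biUnion fun i => (m i).primeFactors with hΛdef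
  have hΛ : ∀ l ∈ Λ, l.Prime := by
    intro l hl
    rcases Finset.mem_union.1 hl with hl | hl
    · exact hΛ0 l hl
    · obtain ⟨i, -, hi⟩ := Finset.mem_biUnion.1 hl
      exact Nat.prime_of_mem_primeFactors hi
  obtain ⟨M1, iM1, nM1, aM1, hζ1, h41⟩ := exists_roots M0 hΛ
  letI : Algebra K M1 := ((algebraMap M0 M1).comp (algebraMap K M0)).toAlgebra
  have htow : IsScalarTower K M0 M1 := IsScalarTower.of_algebraMap_eq fun _ => rfl
  obtain ⟨M, iM, nM, aKM, aM1M, htow1, hSU⟩ := h Λ hΛ M1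
  have hinj : Function.Injective (algebraMap M1 M) := (algebraMap M1 M).injective
  obtain ⟨L, iL, nL, aML, aKL, hKML, hL⟩ := sum_hom hΛ Finset.subset_union_left hSU A m hm0 ht haz
    hm (fun i l hl hd => Finset.mem_union_right _ (Finset.mem_biUnion.2 ⟨i, Finset.mem_univ _,
      Nat.mem_primeFactors.2 ⟨hl, hd, (hm0 i).ne'⟩⟩))
    (fun l hl => by
      obtain ⟨ζ, hζ⟩ := hζ1 l hl
      exact ⟨_, hζ.map_of_injective hinj⟩)
    (by
      obtain ⟨i, hi⟩ := h41
      exact ⟨_, hi.map_of_injective hinj⟩)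
  letI : Algebra M0 L := ((algebraMap M L).comp ((algebraMap M1 M).comp
    (algebraMap M0 M1))).toAlgebra
  refine ⟨L, iL, nL, aKL, inferInstance, IsScalarTower.of_algebraMap_eq fun x => ?_, hL⟩
  change _ = algebraMap M L (algebraMap M1 M (algebraMap M0 M1 (algebraMap K M0 x)))
  rw [← IsScalarTower.algebraMap_apply K M0 M1, ← IsScalarTower.algebraMap_apply K M1 M,
    ← IsScalarTower.algebraMap_apply K M L]

end Pool.Agent.Helper65.TW
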