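import Pool.Agent.Helper65.TW.Basic
import Pool.Agent.Helper35.TW.Sl
import Pool.Agent.Helper28.TW.Pid
import Pool.Agent.Helper23.TW.Conj
import Pool.Agent.Helper82.TW.BadUp
import Pool.Agent.Helper28.BR.Azu
import Pool.Agent.Helper62.BR.GB

/-!
# TOWERS: preparations for the torsors
-/

set_option autoImplicit false

namespace Pool.Agent.Helper65.TW

open NumberField Pool.Agent.Helper4.CB Pool.Agent.Helper69.CB TensorProduct
open Pool.Agent.Helper65.CL (Bad)
open Pool.Agent.Helper65.BR (bad_mono)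
open Pool.Agent.Helper35.BR (HomRing Over lift conj HVar cd univ)
open Pool.Agent.Helper28.BR (Az)
open Pool.Agent.Helper35.TW (slUnit slUnit_coe)

/-- base change in two steps -/
noncomputable def cancelNC (R S F A : Type) [CommRing R] [CommRing S] [Algebra R S] [CommRing F]
    [Algebra R F] [Algebra S F] [IsScalarTower R S F] [Ring A] [Algebra R A] :
    (F ⊗[S] (S ⊗[R] A)) ≃ₐ[F] F ⊗[R] A :=
  AlgEquiv.symm <| AlgEquiv.ofLinearEquiv
    (TensorProduct.AlgebraTensorModule.cancelBaseChange R S F F A).symm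
    (by simp [Algebra.TensorProduct.one_def]) <|
      LinearMap.map_mul_of_map_mul_tmul (fun _ _ _ _ => by simp)

/-- an algebra which is Azumaya over a localisation is generically central simple -/
theorem csa_of_away {R : Type} [CommRing R] [IsDomain R] (A : Type) [Ring A] [Algebra R A] {m : ℕ}
    (hm0 : 0 < m) (x : R) (hx : x ≠ 0)
    (haz : IsAzumaya (Localization.Away x) (Localization.Away x ⊗[R] A))
    (hm : Module.finrank (FractionRing R) (FractionRing R ⊗[R] A) = m ^ 2) :
    Algebra.IsCentral (FractionRing R) (FractionRing R ⊗[R] A) ∧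
      IsSimpleRing (FractionRing R ⊗[R] A) := by
  have hu : ∀ y : Submonoid.powers x, IsUnit (algebraMap R (FractionRing R) y) := by
    rintro ⟨_, k, rfl⟩
    refine isUnit_iff_ne_zero.2 ?_
    rw [Ne, IsFractionRing.to_map_eq_zero_iff]
    exact pow_ne_zero k hx
  letI : Algebra (Localization.Away x) (FractionRing R) :=
    (IsLocalization.lift (M := Submonoid.powers x) (S := Localization.Away x) hu).toAlgebra
  have htow : IsScalarTower R (Localization.Away x) (FractionRing R) :=
    IsScalarTower.of_algebraMap_eq fun r => (IsLocalization.lift_eq hu r).symm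
  have h1 : Az (Localization.Away x) (Localization.Away x ⊗[R] A) :=
    Pool.Agent.Helper28.BR.az_of_azumaya
  have h2 := Pool.Agent.Helper62.BR.az_baseChange (k := FractionRing R) h1
  let e : (FractionRing R ⊗[Localization.Away x] (Localization.Away x ⊗[R] A)) ≃ₐ[FractionRing R]
      FractionRing R ⊗[R] A :=
    cancelNC R (Localization.Away x) (FractionRing R) A
  have hnt : Nontrivial (FractionRing R ⊗[R] A) := by
    refine Module.nontrivial_of_finrank_pos (R := FractionRing R) ?_
    rw [hm]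
    positivity
  have hnt2 : Nontrivial
      (FractionRing R ⊗[Localization.Away x] (Localization.Away x ⊗[R] A)) :=
    e.symm.injective.nontrivial
  obtain ⟨h3, h4⟩ := Pool.Agent.Helper62.BR.simple_of_az h2
  exact ⟨Algebra.IsCentral.of_algEquiv _ _ _ e, IsSimpleRing.of_ringEquiv e.toRingEquiv h3⟩

theorem mul_entries {L : Type} [CommRing L] (B : Subring L) {m : ℕ}
    {X Y : Matrix (Fin m) (Fin m) L} (hX : ∀ p q, X p q ∈ B) (hY : ∀ p q, Y p q ∈ B) (p q : Fin m) :
    (X * Y) p q ∈ B := by
  rw [Matrix.mul_apply]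
  exact Subring.sum_mem _ fun i _ => B.mul_mem (hX p i) (hY i q)

theorem slUnit_inv_coe (L : Type) [CommRing L] {m : ℕ} (V : Matrix (Fin m) (Fin m) ℤ)
    (hV : V.det = 1) :
    (((slUnit L V hV)⁻¹ : (Matrix (Fin m) (Fin m) L)ˣ) : Matrix (Fin m) (Fin m) L) =
      V.adjugate.map (Int.cast : ℤ → L) := by
  have h1 : V * V.adjugate = 1 := by rw [Matrix.mul_adjugate, hV, one_smul]
  have h2 : V.map (Int.cast : ℤ → L) * V.adjugate.map (Int.cast : ℤ → L) = 1 := by
    have h3 := congrArg (Int.castRingHom L).mapMatrix h1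
    rw [map_mul, map_one] at h3
    exact h3
  exact Units.inv_eq_of_mul_eq_one_right (by rw [slUnit_coe]; exact h2)

theorem conj_entries {L : Type} [Field L] (B : Subring L) {m : ℕ} (V : Matrix (Fin m) (Fin m) ℤ)
    (hV : V.det = 1) {X : Matrix (Fin m) (Fin m) L} (hX : ∀ p q, X p q ∈ B) (p q : Fin m) :
    (conj (slUnit L V hV) X) p q ∈ B := by
  change (((slUnit L V hV : (Matrix (Fin m) (Fin m) L)ˣ) : Matrix (Fin m) (Fin m) L) * X *
    (((slUnit L V hV)⁻¹ : (Matrix (Fin m) (Fin m) L)ˣ) : Matrix (Fin m) (Fin m) L)) p q ∈ B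
  rw [slUnit_inv_coe, slUnit_coe]
  refine mul_entries B (mul_entries B (fun p q => ?_) hX) (fun p q => ?_) p q
  · rw [Matrix.map_apply]
    exact intCast_mem B _
  · rw [Matrix.map_apply]
    exact intCast_mem B _

/-- an integral conjugate of a representation -/
theorem exists_integral_conj {L R A : Type} [Field L] [CommRing R] [Ring A] [Algebra R A]
    (B : Subring L) (h1 : IsPrincipalIdealRing B) (h2 : IsFractionRing B L) {N m : ℕ}
    (φ : R →+* L) (ρ : A →+* Matrix (Fin m) (Fin m) L) (hρ : Over φ ρ) (a : Fin N → A)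
    (ha : ∃ s, a s = 1) (β : Fin N → Fin N → Fin N → R)
    (hβ : ∀ s t, a s * a t = ∑ u, β s t u • a u) (hB : ∀ s t u, φ (β s t u) ∈ B) :
    ∃ v : (Matrix (Fin m) (Fin m) L)ˣ, ∀ s p q, (conj v (ρ (a s))) p q ∈ B := by
  refine Pool.Agent.Helper23.TW.integral_conj B (fun x => ?_) (fun s => ρ (a s)) ?_
    (fun s t u => φ (β s t u)) hB (fun s t => ?_)
  · obtain ⟨b, c, hc, rfl⟩ := IsFractionRing.div_surjective (A := B) x
    exact ⟨b, c, b.2, c.2, fun h0 => nonZeroDivisors.ne_zero hc (Subtype.ext h0), rfl⟩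
  · obtain ⟨s, hs⟩ := ha
    exact ⟨s, by rw [hs, map_one]⟩
  · rw [← map_mul, hβ, map_sum]
    exact Finset.sum_congr rfl fun u _ => hρ.smul _ _

/-- structure constants -/
theorem exists_beta {R A : Type} [CommRing R] [Ring A] [Algebra R A] {N : ℕ} (a : Fin N → A)
    (ha : Submodule.span R (Set.range a) = ⊤) : ∃ β : Fin N → Fin N → Fin N → R,
      ∀ s t, a s * a t = ∑ u, β s t u • a u := by
  have h : ∀ x : A, ∃ c : Fin N → R, ∑ u, c u • a u = x := fun x =>
    (Submodule.mem_span_range_iff_exists_fun R).1 (ha ▸ Submodule.mem_top)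
  choose c hc using h
  exact ⟨fun s t => c (a s * a t), fun s t => (hc _).symm⟩

end Pool.Agent.Helper65.TW
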