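import Pool.Agent.Helper65.TW.Tower3
import Pool.Agent.Helper65.TW.Hom
import Pool.Agent.Helper60.TW.SuOpen
import Pool.Agent.Helper98.TQ.Prim
import Pool.Agent.Helper92.TW.Inj
import Pool.Agent.Helper78.TW.Quad
import Pool.Agent.Helper3.TW.Conv
import Pool.Agent.Helper35.TW.Base
import Pool.Agent.Helper62.TW.IntSu
import Pool.Agent.Helper92.TW.ConeInt

/-!
# TOWERS: the closure theorem over a base pair
-/

set_option autoImplicit false

namespace Pool.Agent.Helper65.TW

open NumberField Pool.Agent.Helper4.CB Pool.Agent.Helper69.CB TensorProduct MvPolynomial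
open Pool.Agent.Helper35.BR (HomRing)
open AlgebraicGeometry CategoryTheory Pool.Agent.Helper15
open Pool.Agent.Helper65.CB (DominatedOver)

/-- what is proved by induction -/
structure Prp (K : Type) [Field K] [NumberField K] (B U : Var K) : Prop where
  dom : IsDomain U.R
  ft : Algebra.FiniteType K U.R
  ne : U.t ≠ ⊥
  inj : ∃ j : B.R →ₐ[K] U.R, Function.Injective j
  su : SU K B.R B.t → SU K U.R U.t

theorem map_ne_bot {R S : Type} [CommRing R] [CommRing S] [Algebra R S]
    (h : Function.Injective (algebraMap R S)) {t : Ideal R} (ht : t ≠ ⊥) :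
    t.map (algebraMap R S) ≠ ⊥ := by
  rwa [Ne, Ideal.map_eq_bot_iff_of_injective h]

theorem comp_inj {K R0 R S : Type} [Field K] [CommRing R0] [Algebra K R0] [CommRing R]
    [Algebra K R] [CommRing S] [Algebra K S] [Algebra R S] [IsScalarTower K R S]
    (h : Function.Injective (algebraMap R S))
    (hj : ∃ j : R0 →ₐ[K] R, Function.Injective j) : ∃ j : R0 →ₐ[K] S, Function.Injective j := by
  obtain ⟨j, hj⟩ := hj
  exact ⟨(IsScalarTower.toAlgHom K R S).comp j, fun x y hxy => hj (h hxy)⟩

theorem prp {K : Type} [Field K] [NumberField K] {B : Var K} (hd : IsDomain B.R)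
    (hf : Algebra.FiniteType K B.R) (hB : B.t ≠ ⊥) {U : Var K} (hU : Tower K B U) :
    Prp K B U := by
  induction hU with
  | base => exact ⟨hd, hf, hB, ⟨AlgHom.id K _, fun _ _ h => h⟩, fun h => h⟩
  | affine U hU n s W hs hP ih =>
    obtain ⟨-, hft, hne, hinj, hsu⟩ := ih
    have hi : Function.Injective (algebraMap U.R (MvPolynomial (Fin n) U.R)) := C_injective _ _
    have hW : W ≠ ⊥ := by
      rintro rfl
      apply pow_ne_zero s hne
      rw [Submodule.zero_eq_bot, eq_bot_iff]
      refine hs.trans ?_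
      rw [Ideal.span_le]
      rintro _ ⟨a, ha, d, rfl⟩
      rw [(Submodule.mem_bot _).1 ha, coeff_zero]
      exact Ideal.zero_mem _
    refine ⟨inferInstanceAs (IsDomain (MvPolynomial (Fin n) U.R)), ?_, ?_, comp_inj hi hinj,
      fun h => ?_⟩
    · exact Algebra.FiniteType.trans hft
        (inferInstanceAs (Algebra.FiniteType U.R (MvPolynomial (Fin n) U.R)))
    · exact mul_ne_zero (map_ne_bot hi hne) hW
    · intro Λ hΛ M0 _ _ _
      obtain ⟨M, i1, i2, i3, i4, i5, hM⟩ := hsu h Λ hΛ M0
      exact ⟨M, i1, i2, i3, i4, i5, Pool.Agent.Helper60.TW.su_open hΛ hM W hs hP⟩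
  | hom U hU r A m hm0 hA hm ih =>
    obtain ⟨-, hft, hne, hinj, hsu⟩ := ih
    obtain ⟨x0, hx0, hx00⟩ := Submodule.exists_mem_ne_zero_of_ne_bot hne
    have hcs : ∀ i, Algebra.IsCentral (FractionRing U.R) (FractionRing U.R ⊗[U.R] A i) ∧
        IsSimpleRing (FractionRing U.R ⊗[U.R] A i) := fun i =>
      csa_of_away (A i) (hm0 i) x0 hx00 (hA i x0 hx0 hx00) (hm i)
    have hi := Pool.Agent.Helper78.TW.algebraMap_gen_injective A m (fun i => (hcs i).1)
      (fun i => (hcs i).2) hm
    refine ⟨Pool.Agent.Helper78.TW.gen_isDomain A m (fun i => (hcs i).1) (fun i => (hcs i).2) hm,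
      ?_, map_ne_bot hi hne, comp_inj hi hinj, fun h => su_hom (hsu h) A m hm0 hne hA hm⟩
    have h1 : Algebra.FiniteType U.R (HomRing U.R A m) :=
      Pool.Agent.Helper79.BR.finiteType_homRing A m
    have h2 : Algebra.FiniteType U.R (Gen U.R (HomRing U.R A m)) :=
      Algebra.FiniteType.of_surjective (Ideal.Quotient.mkₐ U.R (tors U.R (HomRing U.R A m)))
        (Ideal.Quotient.mkₐ_surjective _ _)
    exact Algebra.FiniteType.trans hft h2
  | quad U hU n s q hq hs ih =>
    obtain ⟨-, hft, hne, hinj, hsu⟩ := ih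
    have hch : CharZero U.R := charZero_of_injective_algebraMap (algebraMap K U.R).injective
    have h3 : ∃ f g : Fin 3 → Fin n, (q.submatrix f g).det ≠ 0 := by
      by_contra hcon
      push Not at hcon
      apply pow_ne_zero s hne
      rw [Submodule.zero_eq_bot, eq_bot_iff]
      refine hs.trans ?_
      rw [Ideal.span_le]
      rintro _ ⟨fg, rfl⟩
      exact (Submodule.mem_bot _).2 (hcon fg.1 fg.2)
    have hi := Pool.Agent.Helper78.TW.quad_algebraMap_injective q hq h3
    have hp := Pool.Agent.Helper78.TW.quad_tors_prime q hq h3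
    refine ⟨Ideal.Quotient.isDomain _, ?_, ?_, comp_inj hi hinj,
      fun h => Pool.Agent.Helper98.TQ.su_quad' (hsu h) hne q hq hs⟩
    · have h2 : Algebra.FiniteType U.R (Gen U.R (MvPolynomial (Fin n) U.R ⧸ Ideal.span {qf q})) :=
        Algebra.FiniteType.of_surjective (Ideal.Quotient.mkₐ U.R _)
          (Ideal.Quotient.mkₐ_surjective _ _)
      exact Algebra.FiniteType.trans hft h2
    · have hdom : IsDomain (Gen U.R (MvPolynomial (Fin n) U.R ⧸ Ideal.span {qf q})) :=
        Ideal.Quotient.isDomain _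
      refine mul_ne_zero (map_ne_bot hi hne) ?_
      obtain ⟨f, -, -⟩ := h3
      intro h0
      have h4 : (Ideal.Quotient.mk (tors U.R _) (Ideal.Quotient.mk _ (X (f 0))) :
          Gen U.R (MvPolynomial (Fin n) U.R ⧸ Ideal.span {qf q})) ∈
          (⊥ : Ideal (Gen U.R (MvPolynomial (Fin n) U.R ⧸ Ideal.span {qf q}))) := by
        rw [← Submodule.zero_eq_bot, ← h0]
        exact Ideal.subset_span ⟨f 0, rfl⟩
      exact Pool.Agent.Helper98.TQ.X_not_tors q hq (by
        by_contra hcon
        push Not at hcon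
        apply pow_ne_zero s hne
        rw [Submodule.zero_eq_bot, eq_bot_iff]
        refine hs.trans ?_
        rw [Ideal.span_le]
        rintro _ ⟨fg, rfl⟩
        exact (Submodule.mem_bot _).2 (hcon fg.1 fg.2)) (f 0)
        (Ideal.Quotient.eq_zero_iff_mem.1 ((Submodule.mem_bot _).1 h4))
  | proj U V hU hV hUV n s hs J hJ hψ ihU ihV =>
    obtain ⟨-, hft, hne, hinj, hsu⟩ := ihU
    obtain ⟨hdV, hftV, hneV, hinjV, hsuV⟩ := ihV
    have hi := Pool.Agent.Helper92.TW.proj_injective hUV J (Ideal.IsPrime.ne_top inferInstance) hψ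
    refine ⟨Ideal.Quotient.isDomain J, ?_, Pool.Agent.Helper92.TW.proj_ne_bot hUV J hne hψ,
      comp_inj hi hinj, fun h =>
        (Pool.Agent.Helper92.TW.su_proj_full hUV (hsuV h) U.t s hs J hJ hψ).1⟩
    have h2 : Algebra.FiniteType U.R (MvPolynomial (Fin n) U.R ⧸ J) := inferInstance
    exact Algebra.FiniteType.trans hft h2

/-- **TOWERS** -/
theorem tower_main {K : Type} [Field K] [NumberField K] (B : Var K) [IsDomain B.R]
    [Algebra.FiniteType K B.R] (hB : B.t ≠ ⊥) {U : Var K} (hU : Tower K B U) :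
    IsDomain U.R ∧
    (PotentiallyDense K (Spec (CommRingCat.of U.R))
        (Spec.map (CommRingCat.ofHom (algebraMap K U.R))) →
      PotentiallyDense K (Spec (CommRingCat.of B.R))
        (Spec.map (CommRingCat.ofHom (algebraMap K B.R)))) ∧
    (IntPD K B.R B.t → PotentiallyDense K (Spec (CommRingCat.of U.R))
        (Spec.map (CommRingCat.ofHom (algebraMap K U.R)))) := by
  obtain ⟨hd, hft, hne, ⟨j, hj⟩, hsu⟩ := prp inferInstance inferInstance hB hU
  refine ⟨hd, fun h => Pool.Agent.Helper3.TW.pd_of_injective j hj h, fun h => ?_⟩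
  refine pd_of_su (hsu (Pool.Agent.Helper62.TW.int_su h)) _ _ ?_
  exact Pool.Agent.Helper3.TW.dominated_of_injective (AlgHom.id K U.R) fun _ _ h => h

/-- **TOWERS** over a finite extension `M` of `K` -/
theorem tower_final (K : Type) [Field K] [NumberField K] (M : Type) [Field M] [NumberField M]
    [Algebra K M] (B : Var M) [IsDomain B.R] [Algebra.FiniteType M B.R] (hB : B.t ≠ ⊥)
    (U : Var M) (hU : Tower M B U) [Algebra K U.R] [IsScalarTower K M U.R] :
    IsDomain U.R ∧
    (PotentiallyDense M (Spec (CommRingCat.of U.R))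
        (Spec.map (CommRingCat.ofHom (algebraMap M U.R))) →
      PotentiallyDense M (Spec (CommRingCat.of B.R))
        (Spec.map (CommRingCat.ofHom (algebraMap M B.R)))) ∧
    (IntPD M B.R B.t →
      ∀ (X : Scheme.{0}) (s : X ⟶ Spec (CommRingCat.of K)),
        DominatedOver K X (Spec (CommRingCat.of U.R)) s
          (Spec.map (CommRingCat.ofHom (algebraMap K U.R))) → PotentiallyDense K X s) := by
  obtain ⟨h1, h2, h3⟩ := tower_main B hB hU
  have hfin : FiniteDimensional K M := by
    have : IsScalarTower ℚ K M := inferInstance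
    exact Module.Finite.right ℚ K M
  exact ⟨h1, h2, fun h X s hX => Pool.Agent.Helper35.TW.PotentiallyDense.of_dominated_spec
    (M := M) hX (h3 h)⟩

end Pool.Agent.Helper65.TW
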